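import Mathlib

/-!
# MP_cf13c7_al, Q1: a first-order definable radical class of groups which is not locally finite and not the class of all groups

THE CLASS `KS ⊤`: groups with (A1) for all `x, y` some `u = h x h⁻¹ (k x⁻¹ k⁻¹)` such that `u⁻¹ y` commutes with all conjugates of `x`; (A2) every `x` is
`h w h⁻¹ (k w⁻¹ k⁻¹)` with `w = ⁅x, g x g⁻¹⁆`; (A3) if `a, b` commute with `x` then `⁅a, b⁆` commutes with all conjugates of `x`.
It is given by three first-order sentences, closed under images (IMG), normal subgroups (NOR), joins of two normal subgroups (JD), directed unions (DU); it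
contains `SL₂(F)`, `F` algebraically closed of characteristic 2, and no nontrivial commutative group.

RULES. Row `fr:XX`: file `Pool/Agent/<seat>/FR/XX.lean`, `import Pool.Agent.helper95.FR.Spec`, `namespace Pool.Agent.helper95.FR`, `open scoped commutatorElement`,
`universe u`; theorem line in the note (other rows are hypotheses, so all rows are independent); auxiliary lemmas with prefix `XX_`. No double quotes, no extra axioms.
`⁅a, b⁆ = a * b * a⁻¹ * b⁻¹` (`commutatorElement_def`). Report a FALSE statement at once.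
-/

set_option autoImplicit false

namespace Pool.Agent.helper95.FR

open scoped commutatorElement

universe u

/-- The subgroup generated by the conjugates of `x` by the elements of `N`. -/
def NC {G : Type u} [Group G] (N : Subgroup G) (x : G) : Subgroup G := Subgroup.closure {z | ∃ g ∈ N, z = g * x * g⁻¹}

/-- `v` commutes with the conjugates of `x` by the elements of `N`. -/
def PP {G : Type u} [Group G] (N : Subgroup G) (x v : G) : Prop := ∀ g ∈ N, v * (g * x * g⁻¹) = g * x * g⁻¹ * v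

/-- `u` is a conjugate of `x` times a conjugate of `x⁻¹`. -/
def WW {G : Type u} [Group G] (N : Subgroup G) (x u : G) : Prop := ∃ h ∈ N, ∃ k ∈ N, u = h * x * h⁻¹ * (k * x⁻¹ * k⁻¹)

/-- The class, for a subgroup `N` of `G`. -/
structure KS {G : Type u} [Group G] (N : Subgroup G) : Prop where
  A1 : ∀ x ∈ N, ∀ y ∈ N, ∃ u, WW N x u ∧ PP N x (u⁻¹ * y)
  A2 : ∀ x ∈ N, ∃ g ∈ N, WW N ⁅x, g * x * g⁻¹⁆ x
  A3 : ∀ x ∈ N, ∀ a ∈ N, ∀ b ∈ N, a * x = x * a → b * x = x * b → PP N x ⁅a, b⁆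

/-- `N` is the direct product of `NC N x` and its centraliser. -/
def Good {G : Type u} [Group G] (N : Subgroup G) (x : G) : Prop :=
  (∀ y ∈ N, ∃ y' ∈ NC N x, ∃ y'' ∈ N, (∀ z ∈ NC N x, y'' * z = z * y'') ∧ y = y' * y'') ∧
    ∀ z ∈ NC N x, (∀ w ∈ NC N x, z * w = w * z) → z = 1

/-- **BAS** (short). Basic facts. (3) closure induction; (4) `PP ↔` commutes with the generators, closure induction. -/
def BAS_stmt : Prop := ∀ (G : Type u) [Group G] (N : Subgroup G) (x : G),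
  x ∈ NC N x ∧ (x ∈ N → NC N x ≤ N) ∧ (∀ g ∈ N, ∀ z ∈ NC N x, g * z * g⁻¹ ∈ NC N x) ∧
    (∀ v, PP N x v ↔ ∀ z ∈ NC N x, v * z = z * v) ∧ (∀ y ∈ NC N x, NC N y ≤ NC N x) ∧ (∀ N' : Subgroup G, N ≤ N' → NC N x ≤ NC N' x) ∧
    (∀ w, WW N x w → w ∈ NC N x)

/-- **IMC** (short). For a homomorphism `f : G → G` the image of `NC ⊤ x` is in `NC ⊤ (f x)` (closure induction; `f (g x g⁻¹) = f g * f x * (f g)⁻¹`). Also: a subgroup `C` with
`C` normal and `x ∈ C` contains `NC ⊤ x`; if `v` commutes with all elements of `NC ⊤ x`, then all elements of `NC ⊤ v` commute with all elements of `NC ⊤ x`. -/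
def IMC_stmt : Prop := ∀ (G : Type u) [Group G] (x : G),
  (∀ (f : G →* G), ∀ z ∈ NC (⊤ : Subgroup G) x, f z ∈ NC (⊤ : Subgroup G) (f x)) ∧
  (∀ C : Subgroup G, C.Normal → x ∈ C → NC (⊤ : Subgroup G) x ≤ C) ∧
  (∀ v, (∀ z ∈ NC (⊤ : Subgroup G) x, v * z = z * v) → ∀ w ∈ NC (⊤ : Subgroup G) v, ∀ z ∈ NC (⊤ : Subgroup G) x, w * z = z * w)

/-- **KSL** (medium, from BAS). Let `x ∈ N`.
(L1) `z ∈ NC N x` commutes with all of `NC N x`: `z = 1`: A2 for `z`: `g z g⁻¹ ∈ NC N x`, so `w = ⁅z, g z g⁻¹⁆ = 1`, so `z = 1`.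
(L2) every `y ∈ N` is `y' y''`: A1: `y' = u ∈ NC N x`, `y'' = u⁻¹ y`. So `Good N x`.
(L3) for `g ∈ N` there is `s ∈ NC N x` with `g z g⁻¹ = s z s⁻¹` for all `z ∈ NC N x` (`g = s t` from L2).
(L4) every `y ∈ NC N x` is `h x h⁻¹ (k x⁻¹ k⁻¹)` with `h, k ∈ NC N x`: A1 gives `u`, `u⁻¹ y ∈ NC N x` commutes with `NC N x`, so `y = u` by L1; replace `h, k` by L3.
(L5) if `y ∈ N`, `y = y' y''` as in `Good` then `y' ∈ NC N y`: A2 for `y'`: `y' ∈ NC N w`, `w = ⁅y', t⁆`, `t = g y' g⁻¹ ∈ NC N x`, `w = ⁅y, t⁆ ∈ NC N y` (as `y''` commutes with `t`).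
(L6) there is `g ∈ NC N x` such that with `w = ⁅x, g x g⁻¹⁆`: `w ∈ NC N x`, `x = h w h⁻¹ (k w⁻¹ k⁻¹)` for some `h, k ∈ NC N w` (A2, L3 for `x`, then L4 for `w`, as `x ∈ NC N w`). -/
def KSL_stmt : Prop := ∀ (G : Type u) [Group G] (N : Subgroup G), KS N → ∀ x ∈ N,
  Good N x ∧
  (∀ g ∈ N, ∃ s ∈ NC N x, ∀ z ∈ NC N x, g * z * g⁻¹ = s * z * s⁻¹) ∧
  (∀ y ∈ NC N x, ∃ h ∈ NC N x, ∃ k ∈ NC N x, y = h * x * h⁻¹ * (k * x⁻¹ * k⁻¹)) ∧
  (∀ y ∈ N, ∀ y' ∈ NC N x, ∀ y'' : G, (∀ z ∈ NC N x, y'' * z = z * y'') → y = y' * y'' → y' ∈ NC N y) ∧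
  ∃ g ∈ NC N x, ⁅x, g * x * g⁻¹⁆ ∈ NC N x ∧ ∃ h ∈ NC N ⁅x, g * x * g⁻¹⁆, ∃ k ∈ NC N ⁅x, g * x * g⁻¹⁆,
    x = h * ⁅x, g * x * g⁻¹⁆ * h⁻¹ * (k * ⁅x, g * x * g⁻¹⁆⁻¹ * k⁻¹)

/-- **NOR** (short, from BAS, KSL). For `x ∈ M`: `NC N x ≤ M` (generators). A1: `y = y' y''` (`Good N x`), `y' ∈ NC N x`, third item of KSL for `y'`: `WW M x y'`. A2: last item, `w ∈ NC N x ≤ M`, `NC N w ≤ M`. A3: from `M ≤ N`. -/
def NOR_stmt : Prop := ∀ (G : Type u) [Group G] (N M : Subgroup G), KS N → M ≤ N → (∀ g ∈ N, ∀ m ∈ M, g * m * g⁻¹ ∈ M) → KS M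

/-- **PRJ** (short-medium, from BAS). The two projections of the direct product `G = NC ⊤ x × centraliser`: the decomposition `y = y' y''` is unique by the second part of `Good`; `π y = y'`, `ρ y = y''` are homomorphisms. -/
def PRJ_stmt : Prop := ∀ (G : Type u) [Group G] (x : G), Good (⊤ : Subgroup G) x → ∃ π ρ : G →* G,
  (∀ y, y = π y * ρ y) ∧ (∀ y, π y ∈ NC (⊤ : Subgroup G) x) ∧ (∀ y, ∀ z ∈ NC (⊤ : Subgroup G) x, ρ y * z = z * ρ y) ∧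
    ∀ z ∈ NC (⊤ : Subgroup G) x, π z = z ∧ ρ z = 1

/-- **IMG** (medium, from BAS, KSL, PRJ). A1, A2: images. A3: `a, b, x ∈ G` with images `a', b', x'`; `c = ⁅a, x⁆ ∈ ker f`. `ρ` from PRJ for `c` (`Good ⊤ c` by KSL): `ρ y` and `y` have the same image (`π y ∈ NC ⊤ c ≤ ker f`), `⁅ρ a, ρ x⁆ = ρ c = 1`. Then the same for
`d = ⁅ρ b, ρ x⁆ ∈ ker f` and `ρ'`: `x₂ = ρ' (ρ x)`, `a₂`, `b₂` commute with `x₂`, the images are `x', a', b'`; A3 for `x₂, a₂, b₂`, and apply `f` (surjective). -/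
def IMG_stmt : Prop := ∀ (G H : Type u) [Group G] [Group H] (f : G →* H), Function.Surjective f → KS (⊤ : Subgroup G) → KS (⊤ : Subgroup H)

/-! ## Two normal subgroups -/

/-- Two normal subgroups in the class that generate `G`. -/
structure Two {G : Type u} [Group G] (N₁ N₂ : Subgroup G) : Prop where
  n1 : N₁.Normal
  n2 : N₂.Normal
  k1 : KS N₁
  k2 : KS N₂
  top : N₁ ⊔ N₂ = ⊤

/-- **JA1** (short, from BAS, KSL). By symmetry (`Two N₂ N₁`) only `≤`. `NC N₁ z ≤ N₂` (generators, `z ∈ N₂`, `N₂` normal). A generator `g z g⁻¹`, `g ∈ N₁`, is `s z s⁻¹` with `s ∈ NC N₁ z ≤ N₂` (KSL, second item), so in `NC N₂ z`. -/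
def JA1_stmt : Prop := ∀ (G : Type u) [Group G] (N₁ N₂ : Subgroup G), Two N₁ N₂ → ∀ z ∈ N₁, z ∈ N₂ → NC N₁ z = NC N₂ z

/-- **JA2** (medium, from BAS, KSL, JA1). `m = ⁅y, x⁆ = (y x y⁻¹) x⁻¹ ∈ N₁ ⊓ N₂`. `Good N₁ x`: `m = m' w`, `m' ∈ NC N₁ x`, `w` commutes with `NC N₁ x`; `m' ∈ NC N₁ m` (KSL), so `m' , w ∈ N₁ ⊓ N₂` (`NC N₁ m ≤ N₁ ⊓ N₂`). `B = NC N₁ w = NC N₂ w` (JA1) is normalised by `N₁` and by `N₂`.
`x` commutes with all elements of `B` (`w` commutes with `NC N₁ x`, so do its conjugates by `N₁`); so `y x y⁻¹` commutes with `B` (`y⁻¹ B y = B`); `m'` commutes with `B` in the same way. So `w = m'⁻¹ (y x y⁻¹) x⁻¹` commutes with `B ∋ w`, so `w = 1` (`Good N₁ w`). So `y x y⁻¹ = m' x ∈ NC N₁ x`. -/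
def JA2_stmt : Prop := ∀ (G : Type u) [Group G] (N₁ N₂ : Subgroup G), Two N₁ N₂ → ∀ x ∈ N₁, ∀ y ∈ N₂, y * x * y⁻¹ ∈ NC N₁ x

/-- **JAT** (short, from BAS, JA2). `g = y b` with `y ∈ N₂`, `b ∈ N₁` (`Subgroup.mem_sup_of_normal_left` or `Subgroup.mul_normal`), `g x g⁻¹ = y (b x b⁻¹) y⁻¹ ∈ NC N₁ (b x b⁻¹) ≤ NC N₁ x` by JA2 for `b x b⁻¹ ∈ N₁`. -/
def JAT_stmt : Prop := ∀ (G : Type u) [Group G] (N₁ N₂ : Subgroup G), Two N₁ N₂ → ∀ x ∈ N₁, NC (⊤ : Subgroup G) x = NC N₁ x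

/-- **JM** (short, from BAS, KSL, JA1, JAT). `A = NC ⊤ z = NC N₁ z = NC N₂ z`. `y = a b`, `a ∈ N₁`, `b ∈ N₂`, `a = a' a''`, `b = b' b''` by `Good N_i z`; `y = (a' b') (a'' b'')`. The second part: `Good N₁ z`. -/
def JM_stmt : Prop := ∀ (G : Type u) [Group G] (N₁ N₂ : Subgroup G), Two N₁ N₂ → ∀ z ∈ N₁, z ∈ N₂ → Good (⊤ : Subgroup G) z

/-- **JB1** (medium, from BAS, IMC, PRJ, JAT, JM). `w = ⁅x, b⁆ ∈ N₁`. FIRST: `m ∈ NC ⊤ w` and `m ∈ NC ⊤ y` imply `m = 1`: `m ∈ N₁ ⊓ N₂`; `π` from PRJ, JM for `m`; `ξ = π x`, `β = π b`, `η = π y` are in `NC ⊤ m ≤ N₁ ⊓ N₂`, `ξ, β` commute with `η`. A3 of `KS N₁`: `π w = ⁅ξ, β⁆` commutes with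
`NC N₁ η = NC ⊤ η` (BAS, JAT), so all of `NC ⊤ (π w)` commutes with all of `NC ⊤ η` (IMC). `m = π m` is in `NC ⊤ (π w)` and in `NC ⊤ η` (IMC). So `m` is in the centre of `NC ⊤ η`, `m = 1` by `Good ⊤ η` (JM). THEN for `v ∈ NC ⊤ w`: `⁅v, y⁆` is in `NC ⊤ w` and in `NC ⊤ y` (normal subgroups). -/
def JB1_stmt : Prop := ∀ (G : Type u) [Group G] (N₁ N₂ : Subgroup G), Two N₁ N₂ → ∀ x ∈ N₁, ∀ b ∈ N₁, ∀ y ∈ N₂, x * y = y * x → b * y = y * b →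
  ∀ v ∈ NC (⊤ : Subgroup G) ⁅x, b⁆, v * y = y * v

/-- **JB2** (medium-long, from BAS, KSL, IMC, PRJ, JAT, JM, JB1). FIRST `y ∈ N₂`: there are `y' ∈ NC ⊤ x` and `y''` commuting with `NC ⊤ x`, `y = y' y''`. A2 in `N₁`: `g ∈ N₁`, `b = g x g⁻¹`, `w = ⁅x, b⁆`, `x ∈ NC N₁ w ≤ NC ⊤ w`. `c₁ = ⁅x, y⁆ ∈ N₁ ⊓ N₂`, `c₁ ∈ NC ⊤ x`; `π₁, ρ₁` from PRJ (JM for `c₁`);
`x₁ = ρ₁ x` etc.; `x₁, b₁ ∈ N₁`, `y₁ ∈ N₂` (they differ from `x, b, y` by elements of `NC ⊤ c₁ ≤ N₁ ⊓ N₂`), `⁅x₁, y₁⁆ = ρ₁ c₁ = 1`. `c₂ = ⁅b₁, y₁⁆ ∈ N₁ ⊓ N₂`, `c₂ ∈ NC ⊤ x` (`b, b₁ ∈ NC ⊤ x`), `c₂ = ρ₁ ⁅b, y⁆` commutes with `NC ⊤ c₁`. `π₂, ρ₂` for `c₂`; `x₂ = ρ₂ x₁` etc.;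
`x₂, b₂` commute with `y₂`. JB1: `y₂` commutes with `NC ⊤ ⁅x₂, b₂⁆`, which contains `x₂` (IMC: apply `ρ₂ ∘ ρ₁` to `x ∈ NC ⊤ w`) and so `NC ⊤ x₂`. `y₂` commutes with `NC ⊤ c₂`, and with `NC ⊤ c₁` (`y₁` does, `y₂ = (π₂ y₁)⁻¹ y₁`, `π₂ y₁ ∈ NC ⊤ c₂`, and `NC ⊤ c₂` commutes with `NC ⊤ c₁` by IMC).
A conjugate of `x = π₁ x * π₂ x₁ * x₂` is a product of elements of `NC ⊤ c₁`, `NC ⊤ c₂`, `NC ⊤ x₂`, so `y'' = y₂` commutes with `NC ⊤ x`; `y' = π₁ y * π₂ y₁ ∈ NC ⊤ x`. THEN for `g = a y` (`a ∈ N₁`, `y ∈ N₂`): `a = a' a''` by `Good N₁ x` and `NC N₁ x = NC ⊤ x` (JAT), `g = (a' y') (a'' y'')`.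
The second part of `Good`: from `Good N₁ x`. -/
def JB2_stmt : Prop := ∀ (G : Type u) [Group G] (N₁ N₂ : Subgroup G), Two N₁ N₂ → ∀ x ∈ N₁, Good (⊤ : Subgroup G) x

/-- **JC** (short-medium, from BAS, IMC, KSL, JAT, JB2). `g = x y`, `x ∈ N₁`, `y ∈ N₂`; `Good ⊤ x` (JB2): `y = y' y''`, `y' ∈ NC ⊤ x ≤ N₁`, `y''` commutes with `NC ⊤ x`. `y' ∈ NC ⊤ y ≤ N₂`: A2 of `KS N₁` for `y'`: `y' ∈ NC ⊤ w`, `w = ⁅y', t⁆`, `t = h y' h⁻¹ ∈ NC ⊤ x`, `w = ⁅y, t⁆ ∈ NC ⊤ y`. So `y'' ∈ N₂`.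
`a = x y'`, `c = y''`; `a ∈ NC ⊤ x`, so `NC ⊤ a ≤ NC ⊤ x`; IMC. -/
def JC_stmt : Prop := ∀ (G : Type u) [Group G] (N₁ N₂ : Subgroup G), Two N₁ N₂ → ∀ g : G, ∃ a ∈ N₁, ∃ c ∈ N₂, g = a * c ∧
  ∀ z ∈ NC (⊤ : Subgroup G) a, ∀ w ∈ NC (⊤ : Subgroup G) c, z * w = w * z

/-- **JD** (medium-long, from BAS, IMC, KSL, JAT, JB2, JC). `JAT`, `JB2` are used for `(N₁, N₂)` and for `(N₂, N₁)`. For `g = a c` (JC) let `A = NC ⊤ a = NC N₁ a`, `C = NC ⊤ c = NC N₂ c`; they commute; `A ⊓ C = ⊥` (`Good`, second part). Every `h : G` is `h_a h_c h''`, `h_a ∈ A`, `h_c ∈ C`, `h''` commutes with `A` and with `C` (`Good ⊤ a`, then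
`Good ⊤ c` for the second factor; `h_c` commutes with `A`). A conjugate of `g` is in `A C`. A1: `h_a = p a p⁻¹ (q a⁻¹ q⁻¹)`, `p, q ∈ A`, `h_c = r c r⁻¹ (s c⁻¹ s⁻¹)`, `r, s ∈ C` (KSL, third item), so `u = h_a h_c = (p r) g (p r)⁻¹ ((q s) g⁻¹ (q s)⁻¹)`, `u⁻¹ h = h''`. A2: KSL, last item, for `a` in `N₁` (`p ∈ A`, `w_a`) and for `c` in `N₂` (`r ∈ C`, `w_c`):
`⁅g, (p r) g (p r)⁻¹⁆ = w_a w_c`, and `g = a c` is combined as in A1. A3: `d, e` commute with `g`: `⁅d_a, a⁆ ⁅d_c, c⁆ = 1`, both are `1` (`A ⊓ C = ⊥`); the same for `e`; A3 in `N₁` for `a, d_a, e_a`: `⁅d_a, e_a⁆ ∈ A` commutes with `A`, so it is `1`; the same for `c`; so `⁅d, e⁆ = ⁅d'', e''⁆`, which commutes with `A` and `C`. -/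
def JD_stmt : Prop := ∀ (G : Type u) [Group G] (N₁ N₂ : Subgroup G), Two N₁ N₂ → KS (⊤ : Subgroup G)

/-- **DU** (medium, from BAS, KSL). KEY: if `N ∈ D`, `x, v ∈ N`, `PP N x v` then `PP ⊤ x v`: for `g : G` take `N' ∈ D` with `N ≤ N'`, `g ∈ N'`; KSL for `N'`: `g x g⁻¹ = s x s⁻¹`, `s ∈ NC N' x ≤ N` (`N` is normal). A1, A2, A3: take an `N ∈ D` that contains the given elements. -/
def DU_stmt : Prop := ∀ (G : Type u) [Group G] (D : Set (Subgroup G)), (∀ N ∈ D, N.Normal ∧ KS N) → (∀ N ∈ D, ∀ N' ∈ D, ∃ N'' ∈ D, N ≤ N'' ∧ N' ≤ N'') →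
  (∀ g : G, ∃ N ∈ D, g ∈ N) → KS (⊤ : Subgroup G)

/-- **TR** (short-medium). Transfer to subgroups: `K` a subgroup of the group `H` (for `H = ⊤` it is the group itself). `KS` of a subgroup `K` of the group `↥L` and of its image in `G` (all conditions are about elements; coercions). -/
def TR_stmt : Prop := ∀ (G : Type u) [Group G] (L : Subgroup G) (K : Subgroup L), KS K ↔ KS (K.map L.subtype)

/-- **JOI** (medium, from TR, JD, DU). `D` = the set of the normal `N` with `KS N`. `KS (⊤ : Subgroup N) ↔ KS N` by TR (`L = N`, `K = ⊤`). `⊥ ∈ D` (all elements are `1`). For `N₁, N₂ ∈ D`: `L = N₁ ⊔ N₂` is normal; in the group `↥L` the subgroups `N_i.subgroupOf L` are normal, generate `⊤`, and are in the class by TR (their image is `N_i`), so JD gives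
`KS (⊤ : Subgroup L)`, so `KS L`. So `D` is directed, and every `g ∈ sSup D` is in a member of `D` (`Subgroup.mem_sSup_of_directedOn`). DU. -/
def JOI_stmt : Prop := ∀ (G : Type u) [Group G], sSup {N : Subgroup G | N.Normal ∧ KS (⊤ : Subgroup N)} = ⊤ → KS (⊤ : Subgroup G)

/-! ## SL₂ -/

/-- **SLC** (medium). A matrix `x ≠ 1` in `SL₂(F)` is not scalar (characteristic 2: a scalar matrix of determinant 1 has `c² = 1`, `c = 1`). So there is a vector `v` with `v, x v` independent (one of `e₁, e₂, e₁ + e₂`); multiply `v` by a square root: `det (v, x v) = 1`. `P_x = (v, x v) ∈ SL₂(F)` (columns) satisfies `x P_x = P_x C_τ`,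
`C_τ = !![0, 1; 1, τ]`, `τ = tr x` (Cayley-Hamilton, `-1 = 1`). So `y = P_y P_x⁻¹ x P_x P_y⁻¹`. -/
def SLC_stmt : Prop := ∀ (F : Type u) [Field F] [IsAlgClosed F] [CharP F 2] (x y : Matrix.SpecialLinearGroup (Fin 2) F), x ≠ 1 → y ≠ 1 →
  Matrix.trace (x : Matrix (Fin 2) (Fin 2) F) = Matrix.trace (y : Matrix (Fin 2) (Fin 2) F) → ∃ h : Matrix.SpecialLinearGroup (Fin 2) F, y = h * x * h⁻¹

/-- **SLW** (medium, from SLC). `τ = tr x = tr x⁻¹`. The elements of the form `h x h⁻¹ (k x⁻¹ k⁻¹)` are the products `a b`, `a, b ≠ 1` of trace `τ` (SLC), and with an element they contain its conjugates. `a = !![0, 1; 1, τ]`, `b = !![0, s; s⁻¹, τ]`: `a b = !![s⁻¹, τ; τ s⁻¹, s + τ²]`, trace `s + s⁻¹ + τ²`; choose `s ≠ 0` with this trace equal to `tr y`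
(`s² + (tr y + τ²) s + 1 = 0` has a root). If `y ≠ 1` and `a b ≠ 1`, then `y` is conjugate to `a b` (SLC). `y = 1`: `h = k = 1`. `a b = 1` only if `τ = 0` and then `s = 1`, `tr y = 0`: `x, y` are `≠ 1` of trace `0`, so conjugate to `!![1, 1; 0, 1]`; `!![1, c; 0, 1] * !![1, d; 0, 1] = !![1, c + d; 0, 1]` with `c, d, c + d ≠ 0` (`F` is infinite) is of the form for `x` and
conjugate to `y`. -/
def SLW_stmt : Prop := ∀ (F : Type u) [Field F] [IsAlgClosed F] [CharP F 2] (x y : Matrix.SpecialLinearGroup (Fin 2) F), x ≠ 1 → ∃ h k : Matrix.SpecialLinearGroup (Fin 2) F,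
  y = h * x * h⁻¹ * (k * x⁻¹ * k⁻¹)

/-- **SLT** (short-medium). The entries: `x = !![p, q; r, s]` is not scalar, so `q ≠ 0` or `r ≠ 0` or `p ≠ s`; `a x = x a` says `a₀₁ r = q a₁₀`, `a₀₁ (p - s) = q (a₀₀ - a₁₁)`, `a₁₀ (p - s) = r (a₀₀ - a₁₁)`; the vector `(a₀₁, a₁₀, a₀₀ - a₁₁)` is a multiple of `(q, r, p - s)`, the same for `b`; so `a b = b a`. -/
def SLT_stmt : Prop := ∀ (F : Type u) [Field F] [CharP F 2] (x a b : Matrix.SpecialLinearGroup (Fin 2) F), x ≠ 1 → a * x = x * a → b * x = x * b → a * b = b * a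

/-- **SLK** (short-medium, from SLW, SLT). A1: `x ≠ 1`: `u = y`; `x = 1`: `u = 1`. A2: `x ≠ 1`: if `⁅x, g x g⁻¹⁆ ≠ 1` for some `g`, SLW. Otherwise all conjugates of `x` commute with `x`, so with each other, so by SLW all elements commute with `x` (as `h x h⁻¹`, `k x⁻¹ k⁻¹` do), and by SLT the group is commutative: but `!![1, 1; 0, 1]`, `!![1, 0; 1, 1]` do not commute.
`x = 1`: `g = h = k = 1`. A3: `x ≠ 1`: `⁅a, b⁆ = 1` by SLT; `x = 1`: the conjugates are `1`. -/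
def SLK_stmt : Prop := ∀ (F : Type u) [Field F] [IsAlgClosed F] [CharP F 2], KS (⊤ : Subgroup (Matrix.SpecialLinearGroup (Fin 2) F))

/-- **SLI** (short-medium). `F = AlgebraicClosure (RatFunc (ZMod 2))` (characteristic 2), `t` = the image of `RatFunc.X`, `t ^ n ≠ 1` for `n ≥ 1` (injective maps; `X ^ n - 1 ≠ 0`), `x = !![t, 0; 0, t⁻¹]`, `x ^ n ≠ 1`; the cyclic subgroup `zpowers x` is finitely generated and infinite. -/
def SLI_stmt : Prop := ∃ (F : Type) (_ : Field F) (_ : IsAlgClosed F) (_ : CharP F 2),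
  ∃ H : Subgroup (Matrix.SpecialLinearGroup (Fin 2) F), H.FG ∧ ¬ Finite H

/-! ## First-order definability -/

/-- The function symbols of the language of groups. -/
inductive grpFunc : ℕ → Type
  | mul : grpFunc 2
  | inv : grpFunc 1
  | one : grpFunc 0

/-- The language of groups. -/
def Lgrp : FirstOrder.Language := ⟨grpFunc, fun _ => Empty⟩

/-- A group as a structure. -/
instance grpStr (G : Type u) [Group G] : Lgrp.Structure G where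
  funMap := fun {n} f => match n, f with
    | _, grpFunc.mul => fun v => v 0 * v 1
    | _, grpFunc.inv => fun v => (v 0)⁻¹
    | _, grpFunc.one => fun _ => 1
  RelMap := fun {_} r => Empty.elim r

/-- **FOD** (medium). The theory with the three sentences. A1: `∀ x y ∃ h k ∀ g, ((h x h⁻¹ (k x⁻¹ k⁻¹))⁻¹ y) (g x g⁻¹) = (g x g⁻¹) (..)`; A2: `∀ x ∃ g h k, x = h w h⁻¹ (k w⁻¹ k⁻¹)`; A3: `∀ x a b g, a x = x a → b x = x b → ..`. Terms: helper functions for `*`, `⁻¹`; `BoundedFormula` with `∀'`, `∃'`, `=''`, `⟹`; `simp` with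
`Sentence.Realize`, `Formula.Realize`, `BoundedFormula.realize_all`, `realize_ex`, `realize_imp`, `realize_bdEqual`, `Term.realize`, `Fin.snoc`. -/
def FOD_stmt : Prop := ∃ T : Lgrp.Theory, ∀ (G : Type u) [Group G], T.Model G ↔ KS (⊤ : Subgroup G)

/-- Radical classes. -/
structure IsRadical (K : ∀ (G : Type u) [Group G], Prop) : Prop where
  iso : ∀ (G H : Type u) [Group G] [Group H], Nonempty (G ≃* H) → K G → K H
  image : ∀ (G H : Type u) [Group G] [Group H] (f : G →* H), Function.Surjective f → K G → K H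
  normal : ∀ (G : Type u) [Group G] (N : Subgroup G), N.Normal → K G → K N
  join : ∀ (G : Type u) [Group G], sSup {N : Subgroup G | N.Normal ∧ K N} = ⊤ → K G

/-- The full answer to Q1. -/
def FINAL_stmt : Prop := ∃ T : Lgrp.Theory, IsRadical.{u} (fun G _ => T.Model G) ∧
  (∃ (G : Type u) (_ : Group G), T.Model G ∧ ∃ H : Subgroup G, H.FG ∧ ¬ Finite H) ∧ ∃ (G : Type u) (_ : Group G), ¬ T.Model G

end Pool.Agent.helper95.FR
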